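import Pool.Agent.Work.MP_b29d7f_ns.Interface3

/-!
# MP_b29d7f_nt, block CNT (helper20)
-/

set_option autoImplicit false

open Finset

namespace Pool.NS

namespace CNT_

/-- two vectors with the same floors of the scaled coordinates are close -/
lemma norm_lt_of_floor {k : ℕ} (hk : k = 1 ∨ k = 2) (y y' : E k) (h : ℝ) (hh : 0 < h)
    (hf : ∀ i, ⌊y i / (h / 2)⌋ = ⌊y' i / (h / 2)⌋) : ‖y - y'‖ ≤ h := by
  have h1 : ∀ i, ‖(y - y') i‖ ^ 2 ≤ (h / 2) ^ 2 := by
    intro i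
    have h2 : |y i / (h / 2) - y' i / (h / 2)| < 1 := Int.abs_sub_lt_one_of_floor_eq_floor (hf i)
    have h3 : y i / (h / 2) - y' i / (h / 2) = (y - y') i / (h / 2) := by
      rw [PiLp.sub_apply]; ring
    rw [h3, abs_div, abs_of_pos (by positivity : (0 : ℝ) < h / 2), div_lt_one (by positivity)] at h2
    rw [Real.norm_eq_abs]
    exact pow_le_pow_left₀ (abs_nonneg _) h2.le 2
  have h4 : ‖y - y'‖ ^ 2 ≤ h ^ 2 := by
    rw [EuclideanSpace.norm_sq_eq]
    calc ∑ i, ‖(y - y') i‖ ^ 2 ≤ ∑ _i : Fin k, (h / 2) ^ 2 := Finset.sum_le_sum fun i _ => h1 i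
      _ = k * (h / 2) ^ 2 := by simp
      _ ≤ h ^ 2 := by
        have : (k : ℝ) ≤ 2 := by
          rcases hk with h | h <;> rw [h] <;> norm_num
        nlinarith [sq_nonneg h]
  exact abs_le_of_sq_le_sq' h4 hh.le |>.2

/-- the number of possible floors -/
lemma card_floors {δ : ℝ} (hδ : 0 < δ) (hδ1 : δ ≤ 1) :
    ((Finset.Icc ⌊-(2 / δ)⌋ ⌊2 / δ⌋).card : ℝ) ≤ 6 / δ := by
  rw [Int.card_Icc]
  have h1 : (⌊2 / δ⌋ : ℝ) ≤ 2 / δ := Int.floor_le _
  have h2 : -(2 / δ) < (⌊-(2 / δ)⌋ : ℝ) + 1 := Int.lt_floor_add_one _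
  have h3 : 1 ≤ 1 / δ := by rw [le_div_iff₀ hδ]; linarith
  have h4 : (((⌊2 / δ⌋ + 1 - ⌊-(2 / δ)⌋).toNat : ℕ) : ℝ) ≤ max ((⌊2 / δ⌋ + 1 - ⌊-(2 / δ)⌋ : ℤ) : ℝ) 0 := by
    have := Int.toNat_eq_max (⌊2 / δ⌋ + 1 - ⌊-(2 / δ)⌋)
    have h5 : (((⌊2 / δ⌋ + 1 - ⌊-(2 / δ)⌋).toNat : ℤ) : ℝ)
        = ((max (⌊2 / δ⌋ + 1 - ⌊-(2 / δ)⌋) 0 : ℤ) : ℝ) := by rw [this]
    rw [Int.cast_max, Int.cast_zero] at h5
    rw [← h5, Int.cast_natCast]
  refine h4.trans (max_le ?_ (by positivity))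
  push_cast
  have e1 : 6 / δ = 2 / δ + 2 / δ + 2 * (1 / δ) := by ring
  rw [e1]
  linarith

end CNT_

/-- CNT -/
theorem stmt_CNT : Stmt_CNT := by
  intro R _ P C₁ hG
  classical
  set D : ℕ := ∑ v, P.e v with hD
  have hD1 : 1 ≤ D := by
    obtain ⟨v⟩ := hG.ne
    have h2 : 1 ≤ P.e v := by
      rcases hG.e_eq v with h3 | h3 <;> omega
    exact le_trans h2 (Finset.single_le_sum (f := fun v => P.e v) (fun _ _ => Nat.zero_le _)
      (Finset.mem_univ v))
  have hDR : (1 : ℝ) ≤ D := by exact_mod_cast hD1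
  refine ⟨6 ^ D * Real.exp 1, by positivity, ?_⟩
  intro ρ m hρ c a B hB
  set dg := P.deg ρ m with hdg
  set u : ℝ := max 0 ((dg + 1) / D) with hu
  set δ : ℝ := Real.exp (-u) with hδdef
  have hδ : 0 < δ := Real.exp_pos _
  have hu0 : 0 ≤ u := le_max_left _ _
  have hδ1 : δ ≤ 1 := by
    rw [hδdef, Real.exp_le_one_iff]; linarith
  have huD : dg + 1 ≤ D * u := by
    have : (dg + 1) / D ≤ u := le_max_right _ _
    rwa [div_le_iff₀ (by linarith), mul_comm] at this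
  have hcardι : Fintype.card (Σ v : P.Ω, Fin (P.e v)) = D := by
    rw [Fintype.card_sigma]
    simp [hD]
  set F : R → (Σ v : P.Ω, Fin (P.e v)) → ℤ :=
    fun x i => ⌊(P.em x i.1 - c i.1) i.2 / (δ * ρ i.1 / 2)⌋ with hF
  have hmaps : Set.MapsTo F B
      (Fintype.piFinset fun _ : (Σ v : P.Ω, Fin (P.e v)) => Finset.Icc ⌊-(2 / δ)⌋ ⌊2 / δ⌋) := by
    intro x hx
    have hx' : x ∈ B := hx
    rw [Finset.mem_coe, Fintype.mem_piFinset]
    intro i
    have h1 : ‖(P.em x i.1 - c i.1) i.2‖ ≤ ρ i.1 :=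
      (PiLp.norm_apply_le _ _).trans ((hB x hx').1 i.1)
    rw [Real.norm_eq_abs, abs_le] at h1
    have hr := hρ i.1
    have h2 : 0 < δ * ρ i.1 / 2 := by positivity
    rw [Finset.mem_Icc]
    constructor
    · apply Int.floor_le_floor
      rw [le_div_iff₀ h2]
      have e : -(2 / δ) * (δ * ρ i.1 / 2) = -ρ i.1 := by field_simp
      rw [e]; exact h1.1
    · apply Int.floor_le_floor
      rw [div_le_iff₀ h2]
      have e : 2 / δ * (δ * ρ i.1 / 2) = ρ i.1 := by field_simp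
      rw [e]; exact h1.2
  have hinj : Set.InjOn F B := by
    intro x hx y hy hxy
    have hx' : x ∈ B := hx
    have hy' : y ∈ B := hy
    by_contra hne
    have hsub : x - y ≠ 0 := sub_ne_zero.2 hne
    have hnorm : ∀ v, ‖P.em (x - y) v‖ ≤ δ * ρ v := by
      intro v
      have h1 := CNT_.norm_lt_of_floor (hG.e_eq v) (P.em x v - c v) (P.em y v - c v) (δ * ρ v)
        (mul_pos hδ (hρ v)) (fun i => congrFun hxy ⟨v, i⟩)
      rw [Data.em_sub]
      have e : P.em x v - c v - (P.em y v - c v) = P.em x v - P.em y v := by abel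
      rwa [e] at h1
    have hlev : ∀ t, P.lev t (x - y) ≤ m t := by
      intro t
      have h1 := hG.nearT_trans ((hB x hx').2 t) (hG.nearT_symm ((hB y hy').2 t))
      exact h1.resolve_left hne
    have h1 := hG.ln_nonneg (x - y) hsub
    have h2 : P.ln (x - y) ≤ ∑ v, (P.e v : ℝ) * (-u + Real.log (ρ v))
        + ∑ t, P.lq t * (m t : ℝ) := by
      unfold Data.ln
      apply add_le_add
      · apply Finset.sum_le_sum
        intro v _
        apply mul_le_mul_of_nonneg_left _ (Nat.cast_nonneg _)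
        have h3 : 0 < ‖P.em (x - y) v‖ := norm_pos_iff.2 (hG.em_ne _ hsub v)
        have h4 := Real.log_le_log h3 (hnorm v)
        rwa [Real.log_mul hδ.ne' (hρ v).ne', hδdef, Real.log_exp] at h4
      · apply Finset.sum_le_sum
        intro t _
        exact mul_le_mul_of_nonneg_left (by exact_mod_cast hlev t) (hG.lq_pos t).le
    have h3 : ∑ v, (P.e v : ℝ) * (-u + Real.log (ρ v)) + ∑ t, P.lq t * (m t : ℝ)
        = -(D * u) + dg := by
      rw [hdg]
      unfold Data.deg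
      have e1 : ∑ v, (P.e v : ℝ) * (-u + Real.log (ρ v))
          = -(∑ v, (P.e v : ℝ)) * u + ∑ v, (P.e v : ℝ) * Real.log (ρ v) := by
        rw [← Finset.sum_neg_distrib, Finset.sum_mul, ← Finset.sum_add_distrib]
        apply Finset.sum_congr rfl
        intro v _
        ring
      rw [e1, hD]
      push_cast
      ring
    linarith
  have hcard := Finset.card_le_card_of_injOn F hmaps hinj
  rw [Fintype.card_piFinset, Finset.prod_const, Finset.card_univ, hcardι] at hcard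
  have hcard' : (B.card : ℝ) ≤ (6 / δ) ^ D := by
    have h1 : (B.card : ℝ) ≤ ((Finset.Icc ⌊-(2 / δ)⌋ ⌊2 / δ⌋).card : ℝ) ^ D := by
      exact_mod_cast hcard
    exact h1.trans (pow_le_pow_left₀ (Nat.cast_nonneg _) (CNT_.card_floors hδ hδ1) D)
  refine hcard'.trans ?_
  have e1 : (6 / δ) ^ D = 6 ^ D * Real.exp (D * u) := by
    rw [div_eq_mul_inv, mul_pow, hδdef, ← Real.exp_neg, neg_neg, ← Real.exp_nat_mul]
  rw [e1, mul_assoc]
  apply mul_le_mul_of_nonneg_left _ (by positivity)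
  have h5 : (D : ℝ) * u = max 0 (dg + 1) := by
    rw [hu, mul_max_of_nonneg _ _ (by linarith), mul_zero, mul_div_cancel₀ _ (by linarith)]
  rw [h5]
  rcases le_total 0 (dg + 1) with h | h
  · rw [max_eq_right h, Real.exp_add, mul_comm, mul_add, mul_one]
    have := Real.exp_pos 1
    linarith
  · rw [max_eq_left h, Real.exp_zero]
    have h6 : 1 ≤ Real.exp 1 := Real.one_le_exp (by norm_num)
    have h7 : 0 < Real.exp dg := Real.exp_pos _
    nlinarith

end Pool.NS
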