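import Pool.Agent.Work.MP_b29d7f_ns.Interface3

/-!
# MP_b29d7f_nt, block SINT (helper20)
-/

set_option autoImplicit false

open Finset NumberField IsDedekindDomain

namespace Pool.NS

namespace SINT_

variable (K : Type) [Field K] [NumberField K]

/-- an element which lies in `t` and in no other prime -/
lemma exists_gen (t : HeightOneSpectrum (𝓞 K)) : ∃ a : 𝓞 K, a ≠ 0 ∧ a ∈ t.asIdeal ∧
    ∀ v : HeightOneSpectrum (𝓞 K), v ≠ t → a ∉ v.asIdeal := by
  classical
  set n := Fintype.card (ClassGroup (𝓞 K)) with hn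
  have hn0 : n ≠ 0 := Fintype.card_ne_zero
  have ht : t.asIdeal ∈ nonZeroDivisors (Ideal (𝓞 K)) := mem_nonZeroDivisors_of_ne_zero t.ne_bot
  have h1 : ClassGroup.mk0 (⟨t.asIdeal, ht⟩ ^ n : nonZeroDivisors (Ideal (𝓞 K))) = 1 := by
    rw [map_pow]
    exact pow_card_eq_one
  have h2 : (t.asIdeal ^ n).IsPrincipal := by
    rw [← ClassGroup.mk0_eq_one_iff (pow_mem ht n)]
    exact h1
  obtain ⟨a, ha⟩ := h2
  have ha' : t.asIdeal ^ n = Ideal.span {a} := ha
  have hne : t.asIdeal ^ n ≠ ⊥ := pow_ne_zero n t.ne_bot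
  refine ⟨a, ?_, ?_, ?_⟩
  · rintro rfl
    apply hne
    rw [ha', Ideal.span_singleton_eq_bot]
  · have h3 : a ∈ t.asIdeal ^ n := by
      rw [ha']; exact Ideal.mem_span_singleton_self a
    exact Ideal.pow_le_self hn0 h3
  · intro v hv hav
    have h3 : t.asIdeal ^ n ≤ v.asIdeal := by
      rw [ha', Ideal.span_singleton_le_iff_mem]
      exact hav
    have h4 : t.asIdeal ≤ v.asIdeal := v.isPrime.le_of_pow_le h3
    have h5 : t.asIdeal.IsMaximal := t.isPrime.isMaximal t.ne_bot
    have h6 : t.asIdeal = v.asIdeal := h5.eq_of_le v.isPrime.ne_top h4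
    exact hv (HeightOneSpectrum.ext h6.symm)

end SINT_

/-- SINT -/
theorem stmt_SINT : Stmt_SINT := by
  intro K _ _ S hS
  classical
  choose a ha0 hat hav using SINT_.exists_gen K
  set g : 𝓞 K := ∏ t ∈ hS.toFinset, a t with hg
  have hg0 : g ≠ 0 := Finset.prod_ne_zero_iff.mpr fun t _ => ha0 t
  have hgS : ∀ v ∈ S, g ∈ v.asIdeal := by
    intro v hv
    exact Ideal.mem_of_dvd _ (Finset.dvd_prod_of_mem a (hS.mem_toFinset.mpr hv)) (hat v)
  have hgn : ∀ v : HeightOneSpectrum (𝓞 K), v ∉ S → g ∉ v.asIdeal := by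
    intro v hv h
    rw [hg, v.isPrime.prod_mem_iff] at h
    obtain ⟨t, ht, h1⟩ := h
    exact hav t v (fun h2 => hv (h2 ▸ hS.mem_toFinset.mp ht)) h1
  have hval : ∀ v : HeightOneSpectrum (𝓞 K), v ∉ S → v.valuation K (algebraMap (𝓞 K) K g) = 1 := by
    intro v hv
    have := hgn v hv
    rwa [← HeightOneSpectrum.valuation_eq_one_iff_notMem (K := K)] at this
  have hgK : algebraMap (𝓞 K) K g ≠ 0 := by
    rwa [Ne, FaithfulSMul.algebraMap_eq_zero_iff]
  refine ⟨g, hg0, inferInstance, ?_⟩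
  rw [IsLocalization.Away, isLocalization_iff]
  refine ⟨?_, ?_, ?_⟩
  · rintro ⟨y, n, rfl⟩
    have hu : IsUnit (algebraMap (𝓞 K) (S.integer K) g) := by
      rw [isUnit_iff_exists_inv]
      refine ⟨⟨(algebraMap (𝓞 K) K g)⁻¹, fun v hv => ?_⟩, ?_⟩
      · rw [map_inv₀, hval v hv, inv_one]
      · apply Subtype.ext
        show algebraMap (𝓞 K) K g * (algebraMap (𝓞 K) K g)⁻¹ = 1
        exact mul_inv_cancel₀ hgK
    have : algebraMap (𝓞 K) (S.integer K) (g ^ n) = (algebraMap (𝓞 K) (S.integer K) g) ^ n :=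
      map_pow _ _ _
    show IsUnit (algebraMap (𝓞 K) (S.integer K) (g ^ n))
    rw [this]
    exact hu.pow n
  · rintro ⟨x, hx⟩
    -- a common exponent
    have hex : ∀ v ∈ hS.toFinset, ∃ n : ℕ, v.valuation K (x * algebraMap (𝓞 K) K g ^ n) ≤ 1 := by
      intro v hv
      by_cases hx0 : x = 0
      · exact ⟨0, by rw [hx0, zero_mul, map_zero]; exact zero_le_one⟩
      have h1 : v.valuation K (algebraMap (𝓞 K) K g) < 1 := by
        have := hgS v (hS.mem_toFinset.mp hv)
        rwa [← HeightOneSpectrum.valuation_lt_one_iff_mem (K := K)] at this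
      have h2 : v.valuation K x ≠ 0 := (Valuation.ne_zero_iff _).mpr hx0
      obtain ⟨n, hn⟩ := exists_pow_lt₀ h1 (Units.mk0 (v.valuation K x)⁻¹ (inv_ne_zero h2))
      refine ⟨n, ?_⟩
      rw [map_mul, map_pow]
      rw [Units.val_mk0] at hn
      calc v.valuation K x * v.valuation K (algebraMap (𝓞 K) K g) ^ n
          ≤ v.valuation K x * (v.valuation K x)⁻¹ := by gcongr
        _ = 1 := mul_inv_cancel₀ h2
    choose! n hn using hex
    set N := ∑ v ∈ hS.toFinset, n v with hN
    have hall : ∀ v : HeightOneSpectrum (𝓞 K),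
        v.valuation K (x * algebraMap (𝓞 K) K g ^ N) ≤ 1 := by
      intro v
      by_cases hv : v ∈ S
      · have h1 := hn v (hS.mem_toFinset.mpr hv)
        have h2 : n v ≤ N := Finset.single_le_sum (fun _ _ => Nat.zero_le _)
          (hS.mem_toFinset.mpr hv)
        obtain ⟨m, hm⟩ := Nat.exists_eq_add_of_le h2
        rw [hm, pow_add, ← mul_assoc, map_mul, map_pow]
        calc v.valuation K (x * algebraMap (𝓞 K) K g ^ n v) *
              v.valuation K (algebraMap (𝓞 K) K g) ^ m ≤ 1 * 1 := by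
              apply mul_le_mul' h1
              exact pow_le_one₀ zero_le (v.valuation_le_one g)
          _ = 1 := one_mul 1
      · rw [map_mul, map_pow, hval v hv, one_pow, mul_one]
        exact hx v hv
    obtain ⟨y, hy⟩ := HeightOneSpectrum.mem_integers_of_valuation_le_one K _ hall
    refine ⟨(y, ⟨g ^ N, N, rfl⟩), ?_⟩
    apply Subtype.ext
    show x * algebraMap (𝓞 K) K (g ^ N) = algebraMap (𝓞 K) K y
    rw [hy, map_pow]
  · intro x y hxy
    refine ⟨1, ?_⟩
    have h1 : algebraMap (𝓞 K) K x = algebraMap (𝓞 K) K y :=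
      congrArg (fun z : S.integer K => (z : K)) hxy
    have h2 : x = y := FaithfulSMul.algebraMap_injective (𝓞 K) K h1
    rw [h2]

end Pool.NS
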